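import Pool.Agent.Lib.MP_defcf3_al.BR.StageI

/-!
Project BR7, modules BASESIMPLE and SEPSPLIT: the base change of a central simple algebra is central simple; central
simple algebras over a separably closed field are matrix algebras.
-/

open scoped TensorProduct

namespace BR7.H46

universe u

section BC

variable {F Ω A : Type*} [Field F] [Field Ω] [Algebra F Ω] [Ring A] [Algebra F A]
  {N : Type*} [DecidableEq N] (b : Module.Basis N F Ω)

/-- Coordinates of a tensor with respect to a basis of the left factor. -/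
noncomputable def co (x : Ω ⊗[F] A) (i : N) : A := TensorProduct.equivFinsuppOfBasisLeft b x i

theorem co_tmul (c : Ω) (a : A) (i : N) : co b (c ⊗ₜ[F] a) i = b.repr c i • a := by
  simp [co]

theorem co_add (x y : Ω ⊗[F] A) (i : N) : co b (x + y) i = co b x i + co b y i := by
  simp [co]

theorem co_sub (x y : Ω ⊗[F] A) (i : N) : co b (x - y) i = co b x i - co b y i := by
  simp [co]

theorem co_neg (x : Ω ⊗[F] A) (i : N) : co b (-x) i = -co b x i := by
  simp [co]

theorem co_zero (i : N) : co b (0 : Ω ⊗[F] A) i = 0 := by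
  simp [co]

theorem co_ext {x y : Ω ⊗[F] A} (h : ∀ i, co b x i = co b y i) : x = y :=
  (TensorProduct.equivFinsuppOfBasisLeft b).injective (Finsupp.ext h)

theorem co_mul_left (a : A) (x : Ω ⊗[F] A) (i : N) : co b ((1 ⊗ₜ[F] a) * x) i = a * co b x i := by
  induction x with
  | zero => simp [co_zero]
  | tmul c a' =>
    rw [Algebra.TensorProduct.tmul_mul_tmul, one_mul, co_tmul, co_tmul, mul_smul_comm]
  | add x y hx hy => rw [mul_add, co_add, co_add, hx, hy, mul_add]

theorem co_mul_right (a : A) (x : Ω ⊗[F] A) (i : N) : co b (x * (1 ⊗ₜ[F] a)) i = co b x i * a := by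
  induction x with
  | zero => simp [co_zero]
  | tmul c a' =>
    rw [Algebra.TensorProduct.tmul_mul_tmul, mul_one, co_tmul, co_tmul, smul_mul_assoc]
  | add x y hx hy => rw [add_mul, co_add, co_add, hx, hy, add_mul]

include b in
/-- A tensor commuting with A is a scalar, when A is central. -/
theorem scalar_of_comm [Algebra.IsCentral F A] (x : Ω ⊗[F] A)
    (h : ∀ a : A, (1 ⊗ₜ[F] a) * x = x * (1 ⊗ₜ[F] a)) :
    ∃ c : Ω, x = c ⊗ₜ[F] (1 : A) := by
  have h1 : ∀ i, ∃ f : F, co b x i = algebraMap F A f := by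
    intro i
    refine (Algebra.IsCentral.mem_center_iff F).1 (Subalgebra.mem_center_iff.2 fun a => ?_)
    have h2 := congrArg (fun z => co b z i) (h a)
    simp only [co_mul_left, co_mul_right] at h2
    exact h2
  choose f hf using h1
  have hsum : x = (TensorProduct.equivFinsuppOfBasisLeft b).symm
      (TensorProduct.equivFinsuppOfBasisLeft b x) := by simp only [LinearEquiv.symm_apply_apply]
  rw [TensorProduct.equivFinsuppOfBasisLeft_symm_apply] at hsum
  refine ⟨(TensorProduct.equivFinsuppOfBasisLeft b x).sum fun i _ => f i • b i, ?_⟩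
  conv_lhs => rw [hsum]
  rw [Finsupp.sum, Finsupp.sum, TensorProduct.sum_tmul]
  refine Finset.sum_congr rfl fun i _ => ?_
  have h3 : (TensorProduct.equivFinsuppOfBasisLeft b x) i = algebraMap F A (f i) := hf i
  rw [h3, Algebra.algebraMap_eq_smul_one, TensorProduct.tmul_smul, TensorProduct.smul_tmul']

end BC

theorem basesimple : BaseSimpleStatement.{u} := by
  classical
  intro F Ω _ _ _ A _ _ _ _ _
  let b := Module.Basis.ofVectorSpace F Ω
  refine ⟨⟨?_⟩, ?_, inferInstance⟩
  · intro x hx
    obtain ⟨c, hc⟩ := scalar_of_comm b x fun a => (Subalgebra.mem_center_iff.1 hx) _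
    rw [hc]
    exact ⟨c, rfl⟩
  · have hnt : Nontrivial (Ω ⊗[F] A) := by
      refine ⟨⟨1, 0, fun h => ?_⟩⟩
      obtain ⟨i, hi⟩ : ∃ i, b.repr (1 : Ω) i ≠ 0 := by
        by_contra hcon
        push Not at hcon
        exact one_ne_zero (b.repr.injective (Finsupp.ext (by simpa using hcon)) : (1 : Ω) = 0)
      have h2 := congrArg (fun z => co b z i) h
      rw [Algebra.TensorProduct.one_def] at h2
      simp only [co_tmul, co_zero] at h2
      exact hi ((smul_eq_zero.1 h2).resolve_right one_ne_zero)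
    refine IsSimpleRing.of_eq_bot_or_eq_top fun I => ?_
    by_cases hI : I = ⊥
    · exact Or.inl hI
    right
    -- a nonzero element of I with minimal support
    let E := TensorProduct.equivFinsuppOfBasisLeft (N := A) b
    have hex : ∃ x : Ω ⊗[F] A, x ∈ I ∧ x ≠ 0 := by
      by_contra hcon
      push Not at hcon
      refine hI (le_antisymm (fun x hx => ?_) bot_le)
      rw [TwoSidedIdeal.mem_bot]
      exact hcon x hx
    have hex2 : ∃ n : ℕ, ∃ x : Ω ⊗[F] A, x ∈ I ∧ x ≠ 0 ∧ (E x).support.card = n := by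
      obtain ⟨x, h1, h2⟩ := hex
      exact ⟨_, x, h1, h2, rfl⟩
    obtain ⟨x, hxI, hx0, hxn⟩ := Nat.find_spec hex2
    have hmin : ∀ y ∈ I, (E y).support.card < (E x).support.card → y = 0 := by
      intro y hy hlt
      by_contra hy0
      rw [hxn] at hlt
      exact Nat.find_min hex2 hlt ⟨y, hy, hy0, rfl⟩
    obtain ⟨i0, hi0⟩ : ∃ i, co b x i ≠ 0 := by
      by_contra hcon
      push Not at hcon
      exact hx0 (co_ext b fun i => by rw [hcon i, co_zero])
    -- the ideal of leading coefficients
    let P : A → Prop := fun a => ∃ y ∈ I, (∀ i, co b x i = 0 → co b y i = 0) ∧ co b y i0 = a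
    let J : TwoSidedIdeal A := TwoSidedIdeal.mk' {a | P a}
      ⟨0, I.zero_mem, fun i _ => co_zero b i, co_zero b i0⟩
      (by
        rintro a a' ⟨y, h1, h2, h3⟩ ⟨y', h1', h2', h3'⟩
        exact ⟨y + y', I.add_mem h1 h1', fun i hi => by rw [co_add, h2 i hi, h2' i hi, add_zero],
          by rw [co_add, h3, h3']⟩)
      (by
        rintro a ⟨y, h1, h2, h3⟩
        exact ⟨-y, I.neg_mem h1, fun i hi => by rw [co_neg, h2 i hi, neg_zero],
          by rw [co_neg, h3]⟩)
      (by
        rintro a a' ⟨y, h1, h2, h3⟩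
        exact ⟨(1 ⊗ₜ[F] a) * y, I.mul_mem_left _ _ h1,
          fun i hi => by rw [co_mul_left, h2 i hi, mul_zero], by rw [co_mul_left, h3]⟩)
      (by
        rintro a a' ⟨y, h1, h2, h3⟩
        exact ⟨y * (1 ⊗ₜ[F] a'), I.mul_mem_right _ _ h1,
          fun i hi => by rw [co_mul_right, h2 i hi, zero_mul], by rw [co_mul_right, h3]⟩)
    have hJ : (1 : A) ∈ J := by
      refine IsSimpleRing.one_mem_of_ne_zero_mem J hi0 ?_
      rw [TwoSidedIdeal.mem_mk']
      exact ⟨x, hxI, fun i hi => hi, rfl⟩
    rw [TwoSidedIdeal.mem_mk'] at hJ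
    obtain ⟨y, hyI, hys, hy1⟩ := hJ
    have hcomm : ∀ a : A, (1 ⊗ₜ[F] a) * y = y * (1 ⊗ₜ[F] a) := by
      intro a
      rw [← sub_eq_zero]
      refine hmin _ (I.sub_mem (I.mul_mem_left _ _ hyI) (I.mul_mem_right _ _ hyI)) ?_
      refine Finset.card_lt_card ⟨?_, fun hsub => ?_⟩
      · intro i hi
        rw [Finsupp.mem_support_iff] at hi ⊢
        intro h0
        refine hi ?_
        change co b _ i = 0
        rw [co_sub, co_mul_left, co_mul_right, hys i h0, mul_zero, zero_mul, sub_zero]
      · have h4 : i0 ∈ (E x).support := by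
          rw [Finsupp.mem_support_iff]; exact hi0
        have h5 := hsub h4
        rw [Finsupp.mem_support_iff] at h5
        refine h5 ?_
        change co b _ i0 = 0
        rw [co_sub, co_mul_left, co_mul_right, hy1, mul_one, one_mul, sub_self]
    obtain ⟨c, hc⟩ := scalar_of_comm b y hcomm
    have hc0 : c ≠ 0 := by
      rintro rfl
      rw [TensorProduct.zero_tmul] at hc
      rw [hc, co_zero] at hy1
      exact zero_ne_one hy1
    rw [← TwoSidedIdeal.one_mem_iff]
    have h6 := I.mul_mem_left (c⁻¹ ⊗ₜ[F] (1 : A)) _ hyI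
    rwa [hc, Algebra.TensorProduct.tmul_mul_tmul, inv_mul_cancel₀ hc0, one_mul,
      ← Algebra.TensorProduct.one_def] at h6

theorem sepsplit : SepSplitStatement.{u} := by
  intro Ω _ _ B _ _ _ _ _
  have := IsArtinianRing.of_finite Ω B
  obtain ⟨n, hn, D, _, _, _, ⟨e⟩⟩ := IsSimpleRing.exists_algEquiv_matrix_divisionRing_finite Ω B
  have : Algebra.IsCentral Ω (Matrix (Fin n) (Fin n) D) := Algebra.IsCentral.of_algEquiv Ω _ _ e
  have : Algebra.IsCentral Ω D := by
    refine ⟨fun d hd => ?_⟩
    have h1 : Matrix.scalar (Fin n) d ∈ Subalgebra.center Ω (Matrix (Fin n) (Fin n) D) := by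
      rw [Subalgebra.mem_center_iff]
      intro M
      ext i j
      rw [Matrix.scalar_apply, Matrix.mul_diagonal, Matrix.diagonal_mul]
      exact (Subalgebra.mem_center_iff.1 hd) _
    rw [Algebra.IsCentral.mem_center_iff] at h1
    obtain ⟨c, hc⟩ := h1
    refine ⟨c, ?_⟩
    have h2 := congrFun (congrFun hc 0) 0
    rw [Matrix.scalar_apply, Matrix.diagonal_apply_eq, Matrix.algebraMap_matrix_apply] at h2
    simpa using h2.symm
  have htop : (⊥ : Subalgebra Ω D) = ⊤ := by
    by_contra hne
    obtain ⟨x, hx, hs⟩ := JacobsonNoether.exists_separable_and_not_isCentral' hne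
    refine hx ?_
    have hint : IsIntegral Ω x := hs.isIntegral
    have hdeg : (minpoly Ω x).degree = 1 :=
      IsSepClosed.degree_eq_one_of_irreducible Ω (minpoly.irreducible hint) hs
    exact (minpoly.mem_range_of_degree_eq_one Ω x hdeg)
  refine ⟨n, NeZero.ne n, ⟨e.trans ?_⟩⟩
  have hbij : Function.Bijective (Algebra.ofId Ω D) := by
    refine ⟨(algebraMap Ω D).injective, fun d => ?_⟩
    have : d ∈ (⊥ : Subalgebra Ω D) := htop ▸ Algebra.mem_top
    exact Algebra.mem_bot.1 this
  exact AlgEquiv.mapMatrix (AlgEquiv.ofBijective (Algebra.ofId Ω D) hbij).symm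

end BR7.H46
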