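import Pool.Agent.Lib.MP_defcf3_al.BR.StageI

/-!
Project BR7, module REPEX: every central simple algebra has splitting data with a continuous factor set.
-/

open scoped TensorProduct

namespace BR7.H46

universe u

section Aux

variable {F Ω : Type u} [Field F] [Field Ω] [Algebra F Ω]

theorem isOpen_eq [IsGalois F Ω] (x : Ω) (g : Ω ≃ₐ[F] Ω) : IsOpen {h : Ω ≃ₐ[F] Ω | h x = g x} := by
  have h1 : FiniteDimensional F (IntermediateField.adjoin F {x}) :=
    IntermediateField.adjoin.finiteDimensional (Algebra.IsIntegral.isIntegral (R := F) x)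
  have h2 := IntermediateField.fixingSubgroup_isOpen (IntermediateField.adjoin F {x})
  have h3 : IsOpen ((MulAction.stabilizer (Ω ≃ₐ[F] Ω) x : Subgroup (Ω ≃ₐ[F] Ω)) :
      Set (Ω ≃ₐ[F] Ω)) := by
    refine Subgroup.isOpen_mono (H₁ := (IntermediateField.adjoin F {x}).fixingSubgroup) ?_ h2
    intro k hk
    rw [MulAction.mem_stabilizer_iff]
    exact (IntermediateField.mem_fixingSubgroup_iff _ _).1 hk x
      (IntermediateField.mem_adjoin_simple_self F x)
  have h4 := h3.preimage (continuous_const_mul g⁻¹)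
  convert h4 using 1
  ext h
  simp only [Set.mem_ofPred_eq, Set.mem_preimage, SetLike.mem_coe, MulAction.mem_stabilizer_iff]
  constructor
  · intro e
    change (g⁻¹ * h) x = x
    rw [AlgEquiv.mul_apply, e]
    exact g.symm_apply_apply x
  · intro e
    have e' : (g⁻¹ * h) x = x := e
    rw [AlgEquiv.mul_apply] at e'
    have e2 := congrArg g e'
    have e3 : g (g⁻¹ (h x)) = h x := g.apply_symm_apply (h x)
    rw [e3] at e2
    exact e2

/-- The twist of a matrix by an automorphism, as a ring homomorphism. -/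
noncomputable def tws (n : ℕ) (g : Ω ≃ₐ[F] Ω) : Matrix (Fin n) (Fin n) Ω →+* Matrix (Fin n) (Fin n) Ω :=
  (g : Ω →+* Ω).mapMatrix

theorem tws_apply (n : ℕ) (g : Ω ≃ₐ[F] Ω) (M : Matrix (Fin n) (Fin n) Ω) : tws n g M = M.map g := rfl

theorem tws_smul (n : ℕ) (g : Ω ≃ₐ[F] Ω) (c : Ω) (M : Matrix (Fin n) (Fin n) Ω) :
    tws n g (c • M) = g c • tws n g M := by
  ext i j
  simp [tws_apply, Matrix.map_apply]

theorem tws_mul (n : ℕ) (g h : Ω ≃ₐ[F] Ω) (M : Matrix (Fin n) (Fin n) Ω) :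
    tws n (g * h) M = tws n g (tws n h M) := by
  ext i j
  simp [tws_apply, Matrix.map_apply, AlgEquiv.mul_apply]

end Aux

theorem repex (h1 : SepSplitStatement.{u}) (h2 : BaseSimpleStatement.{u}) (h3 : SkoNoStatement.{u, 0}) :
    RepExStatement.{u} := by
  classical
  intro F Ω _ _ _ _ _ A _ _ _ _ _
  obtain ⟨hc, hs, hf⟩ := h2 F Ω A
  obtain ⟨n, hn, ⟨φ⟩⟩ := h1 Ω (Ω ⊗[F] A)
  have : NeZero n := ⟨hn⟩
  let ι : A →ₐ[F] Matrix (Fin n) (Fin n) Ω :=
    (φ.toAlgHom.restrictScalars F).comp Algebra.TensorProduct.includeRight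
  have hι : ∀ a, ι a = φ (1 ⊗ₜ[F] a) := fun a => rfl
  have hdim : Module.finrank F A = Fintype.card (Fin n) ^ 2 := by
    rw [← Module.finrank_baseChange (R := Ω), φ.toLinearEquiv.finrank_eq, Module.finrank_matrix,
      Module.finrank_self, mul_one, sq]
  have hspan : Submodule.span Ω (Set.range ι) = ⊤ := by
    rw [eq_top_iff]
    intro M _
    obtain ⟨x, rfl⟩ := φ.surjective M
    induction x with
    | zero => rw [map_zero]; exact Submodule.zero_mem _
    | tmul c a =>
      have : c ⊗ₜ[F] a = c • ((1 : Ω) ⊗ₜ[F] a) := by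
        rw [TensorProduct.smul_tmul', smul_eq_mul, mul_one]
      rw [this, map_smul]
      exact Submodule.smul_mem _ _ (Submodule.subset_span ⟨a, rfl⟩)
    | add x y hx hy => rw [map_add]; exact Submodule.add_mem _ (hx trivial) (hy trivial)
  have hsc : ∀ c : F, ι (algebraMap F A c) = Matrix.scalar (Fin n) (algebraMap F Ω c) := by
    intro c
    rw [ι.commutes]
    rfl
  have hP : ∀ g : Ω ≃ₐ[F] Ω, ∃ w : (Matrix (Fin n) (Fin n) Ω)ˣ,
      ∀ a, (ι a).map g = (↑w⁻¹ : Matrix (Fin n) (Fin n) Ω) * ι a * w := by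
    intro g
    refine h3 F Ω A (Fin n) hdim inferInstance ι.toRingHom ((tws n g).comp ι.toRingHom) hsc ?_ hspan ?_
    · intro c
      have h5 : ((tws n g).comp ι.toRingHom) (algebraMap F A c) = tws n g (ι (algebraMap F A c)) := rfl
      rw [h5, hsc]
      ext i j
      by_cases hij : i = j
      · subst hij
        simp [tws_apply, Matrix.map_apply]
      · simp [tws_apply, Matrix.map_apply, hij]
    · rw [eq_top_iff]
      intro M _
      have key : ∀ M ∈ Submodule.span Ω (Set.range ι),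
          tws n g M ∈ Submodule.span Ω (Set.range ((tws n g).comp ι.toRingHom)) := by
        intro M hM
        induction hM using Submodule.span_induction with
        | mem x hx =>
          obtain ⟨a, rfl⟩ := hx
          exact Submodule.subset_span ⟨a, rfl⟩
        | zero => rw [map_zero]; exact Submodule.zero_mem _
        | add x y _ _ hx hy => rw [map_add]; exact Submodule.add_mem _ hx hy
        | smul c x _ hx => rw [tws_smul]; exact Submodule.smul_mem _ _ hx
      have h6 := key (tws n g⁻¹ M) (by rw [hspan]; exact Submodule.mem_top)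
      rwa [← tws_mul, mul_inv_cancel, show tws n (1 : Ω ≃ₐ[F] Ω) M = M from by
        ext i j; simp [tws_apply]] at h6
  let J : (Ω ≃ₐ[F] Ω) → A → Matrix (Fin n) (Fin n) Ω := fun g a => (ι a).map g
  let U : (A → Matrix (Fin n) (Fin n) Ω) → (Matrix (Fin n) (Fin n) Ω)ˣ := fun j =>
    if h : ∃ w : (Matrix (Fin n) (Fin n) Ω)ˣ, ∀ a, j a = (↑w⁻¹ : Matrix (Fin n) (Fin n) Ω) * ι a * w
    then h.choose else 1
  have hU : ∀ (g : Ω ≃ₐ[F] Ω) (a : A), (ι a).map g = (↑(U (J g))⁻¹ : Matrix (Fin n) (Fin n) Ω) * ι a * (U (J g)) := by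
    intro g a
    have h7 : U (J g) = (hP g).choose := dif_pos (hP g)
    rw [h7]
    exact (hP g).choose_spec a
  have hJ : IsLocallyConstant J := by
    rw [IsLocallyConstant.iff_exists_open]
    intro g
    let b := Module.finBasis F A
    refine ⟨⋂ k, ⋂ i, ⋂ j, {h : Ω ≃ₐ[F] Ω | h (ι (b k) i j) = g (ι (b k) i j)}, ?_, ?_, ?_⟩
    · exact isOpen_iInter_of_finite fun k => isOpen_iInter_of_finite fun i =>
        isOpen_iInter_of_finite fun j => isOpen_eq _ _
    · simp only [Set.mem_iInter, Set.mem_ofPred_eq, implies_true]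
    · intro h hh
      simp only [Set.mem_iInter, Set.mem_ofPred_eq] at hh
      have h8 : (h.toLinearMap.mapMatrix (m := Fin n) (n := Fin n)).comp ι.toLinearMap =
          (g.toLinearMap.mapMatrix (m := Fin n) (n := Fin n)).comp ι.toLinearMap := by
        refine b.ext fun k => ?_
        ext i j
        exact hh k i j
      funext a
      exact congrArg (fun z : A →ₗ[F] Matrix (Fin n) (Fin n) Ω => z a) h8
  have hfac : ∀ g h : Ω ≃ₐ[F] Ω, ∃ c : Ωˣ,
      (U (J g) : Matrix (Fin n) (Fin n) Ω) * (U (J h) : Matrix (Fin n) (Fin n) Ω).map g =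
        (c : Ω) • (U (J (g * h)) : Matrix (Fin n) (Fin n) Ω) := by
    intro g h
    let w : (Matrix (Fin n) (Fin n) Ω)ˣ := U (J g) * Units.map (tws n g : _ →* _) (U (J h))
    have hw : (w : Matrix (Fin n) (Fin n) Ω) =
      (U (J g) : Matrix (Fin n) (Fin n) Ω) * tws n g (U (J h) : Matrix (Fin n) (Fin n) Ω) := rfl
    have hw' : ((w⁻¹ : (Matrix (Fin n) (Fin n) Ω)ˣ) : Matrix (Fin n) (Fin n) Ω) =
      tws n g ((U (J h))⁻¹ : (Matrix (Fin n) (Fin n) Ω)ˣ) *
        ((U (J g))⁻¹ : (Matrix (Fin n) (Fin n) Ω)ˣ) := by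
      simp only [w, mul_inv_rev, Units.val_mul]
      rfl
    have e1 : ∀ a, (ι a).map (g * h : Ω ≃ₐ[F] Ω) = (↑w⁻¹ : Matrix (Fin n) (Fin n) Ω) * ι a * w := by
      intro a
      rw [← tws_apply, tws_mul, tws_apply n h, hU h a, map_mul, map_mul, tws_apply n g (ι a), hU g a,
        hw, hw']
      simp only [mul_assoc]
    set v := U (J (g * h)) with hv
    have e2 : ∀ a, ι a * ((w : Matrix (Fin n) (Fin n) Ω) * (↑v⁻¹ : Matrix (Fin n) (Fin n) Ω)) = (w : Matrix (Fin n) (Fin n) Ω) * (↑v⁻¹ : Matrix (Fin n) (Fin n) Ω) * ι a := by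
      intro a
      have e3 := e1 a
      rw [hU (g * h) a, ← hv] at e3
      calc ι a * ((w : Matrix (Fin n) (Fin n) Ω) * (↑v⁻¹ : Matrix (Fin n) (Fin n) Ω))
          = w * ((↑w⁻¹ : Matrix (Fin n) (Fin n) Ω) * ι a * w) * (↑v⁻¹ : Matrix (Fin n) (Fin n) Ω) := by
            simp only [← mul_assoc, Units.mul_inv, one_mul]
        _ = w * ((↑v⁻¹ : Matrix (Fin n) (Fin n) Ω) * ι a * v) * (↑v⁻¹ : Matrix (Fin n) (Fin n) Ω) := by rw [e3]
        _ = (w : Matrix (Fin n) (Fin n) Ω) * (↑v⁻¹ : Matrix (Fin n) (Fin n) Ω) * ι a := by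
            simp only [mul_assoc, Units.mul_inv, mul_one]
    have e4 : (w : Matrix (Fin n) (Fin n) Ω) * (↑v⁻¹ : Matrix (Fin n) (Fin n) Ω) ∈ Subalgebra.center Ω (Matrix (Fin n) (Fin n) Ω) := by
      rw [Subalgebra.mem_center_iff]
      intro M
      have hM : M ∈ Submodule.span Ω (Set.range ι) := by rw [hspan]; exact Submodule.mem_top
      induction hM using Submodule.span_induction with
      | mem x hx => obtain ⟨a, rfl⟩ := hx; exact e2 a
      | zero => rw [zero_mul, mul_zero]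
      | add x y _ _ hx hy => rw [add_mul, mul_add, hx, hy]
      | smul c x _ hx => rw [smul_mul_assoc, mul_smul_comm, hx]
    rw [Algebra.IsCentral.mem_center_iff] at e4
    obtain ⟨c, hc⟩ := e4
    have hc0 : c ≠ 0 := by
      rintro rfl
      rw [map_zero] at hc
      have h9 : IsUnit ((w : Matrix (Fin n) (Fin n) Ω) * (↑v⁻¹ : Matrix (Fin n) (Fin n) Ω)) := ⟨w * v⁻¹, by rw [Units.val_mul]⟩
      rw [hc] at h9
      exact not_isUnit_zero h9
    refine ⟨Units.mk0 c hc0, ?_⟩
    have h10 : (w : Matrix (Fin n) (Fin n) Ω) = c • (v : Matrix (Fin n) (Fin n) Ω) := by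
      rw [Algebra.smul_def, ← hc, mul_assoc, Units.inv_mul, mul_one]
    exact h10
  choose f hfs using hfac
  exact ⟨n, f, ⟨⟨ι, fun g => U (J g), inferInstance, hdim, hspan, hJ.comp U, hU, hfs⟩⟩⟩

end BR7.H46
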